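import Mathlib
import Pool.Agent.GRO.FG1
import Pool.Agent.GRO.OC
import Pool.Agent.GRA.MAIN

/-!
Part (i) of the strong Birch and Swinnerton-Dyer conjecture (meromorphic continuation, and the order of vanishing at
`s = 1` is the rank), with rank `0`, for at least 8.7% of the quadratic twists `E^(m)` by ALL squarefree integers `m`,
ordered by `|m|`, of the elliptic curves `E` of Gross over `F = ℚ(j(E))` with good reduction outside `q`, for EVERY prime
number `q` congruent to `7` modulo `8`. Here `K = ℚ(√-q)`, `F` is a subfield of index two of the Hilbert class field `H` of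
`K`, so that the degree of `F` is the class number of `K`, and `E` is an elliptic curve over `F` with complex multiplication
by the ring of integers of `K` which is isogenous over `H` to its conjugates over `K` (`GrossCurve`). For `q = 23` the curve
is `y² + θ x y = x³ + (6 θ² + 5 θ - 8) x² + 23 x` over the cubic field `F = ℚ(θ)`, `θ³ = θ + 1`.
-/

set_option autoImplicit false

open NumberField IsDedekindDomain
open scoped Classical

namespace Pool.Agent.Results.MP_9ab903_nt.GrossIntegerTwists

/-- `K = ℚ(√-q)` for the prime number `q` congruent to `7` modulo `8`, and `𝔭` is a prime ideal of `K` above `2`. -/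
structure Base (K : Type) [Field K] [NumberField K] (𝔭 : HeightOneSpectrum (𝓞 K)) (q : ℕ) : Prop where
  /-- `q` is a prime number -/
  prime : q.Prime
  /-- `q` is congruent to `7` modulo `8` -/
  mod : q % 8 = 7
  /-- `K` is a quadratic field -/
  quad : Module.finrank ℚ K = 2
  /-- `K` contains `√-q` -/
  root : ∃ r : K, r ^ 2 = -(q : K)
  /-- `𝔭` lies above `2` -/
  two : (2 : 𝓞 K) ∈ 𝔭.asIdeal

/-- The ideal class of the prime ideal `v`. -/
noncomputable def cls {K : Type} [Field K] [NumberField K] (v : HeightOneSpectrum (𝓞 K)) : ClassGroup (𝓞 K) :=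
  ClassGroup.mk0 ⟨v.asIdeal, mem_nonZeroDivisors_of_ne_zero v.ne_bot⟩

/-- `H` is the Hilbert class field of `K`: it is a Galois extension of `K`, unramified at all prime ideals, and `a` is the
isomorphism of Artin from the class group of `K` to the Galois group: for almost all prime ideals `v` of `K` the class of `v`
is mapped to the Frobenius automorphism at the prime ideals of `H` above `v`. -/
structure HilbertClassField (K H : Type) [Field K] [NumberField K] [Field H] [NumberField H] [Algebra K H]
    (a : ClassGroup (𝓞 K) ≃* (H ≃ₐ[K] H)) : Prop where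
  galois : IsGalois K H
  unramified : Algebra.FormallyUnramified (𝓞 K) (𝓞 H)
  artin : ∃ S : Set (HeightOneSpectrum (𝓞 K)), S.Finite ∧ ∀ v ∉ S, ∀ w : HeightOneSpectrum (𝓞 H),
    w.asIdeal.under (𝓞 K) = v.asIdeal → ∀ y : 𝓞 H, a (cls v) • y - y ^ Ideal.absNorm v.asIdeal ∈ w.asIdeal

/-- `E'` is (isomorphic over `L` to) the quotient of the elliptic curve `E` by the subgroup of order two which is
generated by a point of `E(L)`. In an equation `y² = x³ + a x² + b x` of `E` this point is `(0, 0)`, and the quotient is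
`y² = x³ - 2 a x² + (a² - 4 b) x`. -/
def QuotientByTwo {L : Type} [Field L] (E E' : WeierstrassCurve L) : Prop :=
  ∃ (a b : L) (C C' : WeierstrassCurve.VariableChange L), b ≠ 0 ∧ a ^ 2 ≠ 4 * b ∧
    C • E = ⟨0, a, 0, b, 0⟩ ∧ C' • E' = ⟨0, -2 * a, 0, a ^ 2 - 4 * b, 0⟩

/-- There is an isogeny of degree `m` over `L` from `E` to `E'`: in suitable equations of `E`, `E'` with `a₁ = a₃ = 0` it is
given by `x ↦ p(x)/q(x)`, `y ↦ y (p/q)'(x)/c` with coprime polynomials `p`, `q`, `deg p = m > deg q`, and a constant `c`, and it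
is a homomorphism of groups on the points over every field over `L`. -/
def Isogeny {L : Type} [Field L] (m : ℕ) (E E' : WeierstrassCurve L) : Prop :=
  ∃ (C C' : WeierstrassCurve.VariableChange L) (p q : Polynomial L) (c : L), (C • E).a₁ = 0 ∧ (C • E).a₃ = 0 ∧
    (C' • E').a₁ = 0 ∧ (C' • E').a₃ = 0 ∧ IsCoprime p q ∧ p.natDegree = m ∧ q.natDegree < m ∧ c ≠ 0 ∧
    ∀ (M : Type) [Field M] (i : L →+* M),
      ∃ μ : ((C • E).map i).toAffine.Point →+ ((C' • E').map i).toAffine.Point, ∀ x y h,
        ((q.map i).eval x = 0 → μ (.some x y h) = 0) ∧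
        ((q.map i).eval x ≠ 0 → ∃ h', μ (.some x y h) = .some ((p.map i).eval x / (q.map i).eval x)
          (y * (((Polynomial.derivative p * q - p * Polynomial.derivative q).map i).eval x / (q.map i).eval x ^ 2) / i c) h')

/-- The curve `E` over `H` is a curve of Gross: the conjugate `E^σ` of `E` under the Frobenius automorphism `σ` of `𝔭` is the
quotient of `E` by a subgroup of order two which is generated by a point of `E(H)`, and the class group of `K` is generated
by the class of `𝔭` and the classes of the prime ideals `v` of odd prime norm such that there is an isogeny of degree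
`N v` over `H` from `E` to the conjugate of `E` under the Frobenius automorphism of `v`. -/
def GrossCurve {K H : Type} [Field K] [NumberField K] [Field H] [Algebra K H] (a : ClassGroup (𝓞 K) ≃* (H ≃ₐ[K] H))
    (𝔭 : HeightOneSpectrum (𝓞 K)) (E : WeierstrassCurve H) : Prop :=
  QuotientByTwo E (E.map (a (cls 𝔭) : H →+* H)) ∧
  Subgroup.closure ({cls 𝔭} ∪ {c | ∃ v : HeightOneSpectrum (𝓞 K), (Ideal.absNorm v.asIdeal).Prime ∧ (2 : 𝓞 K) ∉ v.asIdeal ∧
    c = cls v ∧ Isogeny (Ideal.absNorm v.asIdeal) E (E.map (a (cls v) : H →+* H))}) = ⊤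

/-- The quadratic twist of `E` by `d`: `E` has the equation `y² = x³ + (b₂/4) x² + (b₄/2) x + b₆/4`, the twist has the
equation `d y² = x³ + (b₂/4) x² + (b₄/2) x + b₆/4`, or `y² = x³ + d (b₂/4) x² + d² (b₄/2) x + d³ b₆/4`. -/
def twist {F : Type} [Field F] (E : WeierstrassCurve F) (d : F) : WeierstrassCurve F :=
  ⟨0, d * (E.b₂ / 4), 0, d ^ 2 * (E.b₄ / 2), d ^ 3 * (E.b₆ / 4)⟩

/-- `E` has good reduction at `w`: it has an equation which is integral at `w` and whose discriminant is a unit at `w`. -/
def GoodReduction {F : Type} [Field F] [NumberField F] (E : WeierstrassCurve F) (w : HeightOneSpectrum (𝓞 F)) : Prop :=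
  ∃ C : WeierstrassCurve.VariableChange F, w.valuation F (C • E).a₁ ≤ 1 ∧ w.valuation F (C • E).a₂ ≤ 1 ∧
    w.valuation F (C • E).a₃ ≤ 1 ∧ w.valuation F (C • E).a₄ ≤ 1 ∧ w.valuation F (C • E).a₆ ≤ 1 ∧
    w.valuation F (C • E).Δ = 1

/-- Part (i) of the conjecture, with rank `0`, for the elliptic curve `E` over `F`: Mathlib's `L`-series of `E`
converges absolutely for `Re s > 3/2` and extends to a meromorphic function `Λ` on `ℂ`, which is holomorphic at `1`, and
the order of vanishing of `Λ` at `s = 1` and the rank of `E` are both `0`. -/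
def RankZero {F : Type} [Field F] [NumberField F] (E : WeierstrassCurve F) : Prop :=
  E.IsElliptic ∧ ∃ Λ : ℂ → ℂ, MeromorphicOn Λ Set.univ ∧
    (∀ s : ℂ, 3 / 2 < s.re → LSeriesSummable (fun k => (E.LFunction k : ℂ)) s ∧ Λ s = E.LSeries s) ∧
    AnalyticAt ℂ Λ 1 ∧ meromorphicOrderAt Λ 1 = (Module.finrank ℤ E.toAffine.Point : ℤ) ∧ Λ 1 ≠ 0 ∧
    Finite E.toAffine.Point

/-- The squarefree integers `m` (of both signs) with `|m| ≤ X` and the property `P`. -/
def integers (X : ℕ) (P : ℤ → Prop) : Set ℤ := {m | Squarefree m ∧ |m| ≤ X ∧ P m}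

/-- The main statement for the curve `E` over `F`: for every `c < (5/24) ∏ (1 - 2 ^ (-(2 k + 1))) = 0.08737…` (the product
over `k ≥ 0`) the twist of `E` by `m` satisfies `RankZero` for at least the part `c` of the squarefree integers `m` with
`|m| ≤ X`, if `X` is large. -/
def MostIntegerTwists {F : Type} [Field F] [NumberField F] (E : WeierstrassCurve F) : Prop :=
  ∀ c : ℝ, c < 5 / 24 * ∏' k : ℕ, (1 - 1 / 2 ^ (2 * k + 1)) → ∃ X₀ : ℕ, ∀ X : ℕ, X₀ ≤ X →
    c * ((integers X fun _ => True).ncard : ℝ) ≤ ((integers X fun m => RankZero (twist E (m : F))).ncard : ℝ)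

/-- The example `q = 23`: the cubic field `F = ℚ(θ)` with `θ³ = θ + 1`, and the curve
`y² + θ x y = x³ + (6 θ² + 5 θ - 8) x² + 23 x`, of discriminant `-23³ (4 θ - 3 θ²)²`, `4 θ - 3 θ² = θ ^ (-12)`. -/
def Example23 : Prop :=
  (∃ (F : Type) (_ : Field F) (_ : NumberField F), Module.finrank ℚ F = 3 ∧ ∃ θ : F, θ ^ 3 = θ + 1) ∧
  ∀ (F : Type) [Field F] [NumberField F] (θ : F), Module.finrank ℚ F = 3 → θ ^ 3 = θ + 1 →
    MostIntegerTwists (⟨θ, 6 * θ ^ 2 + 5 * θ - 8, 0, 23, 0⟩ : WeierstrassCurve F)

theorem most_of {F : Type} [Field F] [NumberField F] {E : WeierstrassCurve F} (h : GRO.MostInt E) : MostIntegerTwists E := by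
  intro c hc
  obtain ⟨X₀, hX⟩ := h (5 / 24 * TRPR.Pinf - c) (sub_pos.2 hc)
  refine ⟨X₀, fun X h => ?_⟩
  have h4 := hX X h
  rw [sub_sub_cancel] at h4
  exact h4

theorem mostIntegerTwists (K H F : Type) [Field K] [NumberField K] [Field H] [NumberField H] [Field F] [NumberField F]
    [Algebra K H] [Algebra F H] (a : ClassGroup (𝓞 K) ≃* (H ≃ₐ[K] H)) (𝔭 : HeightOneSpectrum (𝓞 K)) (q : ℕ)
    (hK : Base K 𝔭 q) (hH : HilbertClassField K H a)
    (hF : Module.finrank F H = 2) (E : WeierstrassCurve F) (hE : GrossCurve a 𝔭 (E.map (algebraMap F H))) :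
    (∃ m₀ : ℤ, m₀ ≠ 0 ∧ MostIntegerTwists (twist E (m₀ : F))) ∧
    ((∀ w : HeightOneSpectrum (𝓞 F), (q : 𝓞 F) ∉ w.asIdeal → GoodReduction E w) → MostIntegerTwists E) := by
  obtain ⟨r, hr⟩ := hK.root
  let Q : GRO.QK K := ⟨q, hK.prime, hK.mod, hK.quad, r, hr⟩
  have hdeg : Module.finrank ℚ F = Module.finrank K H := by
    have h1 : Module.finrank ℚ K * Module.finrank K H = Module.finrank ℚ H := Module.finrank_mul_finrank ℚ K H
    have h2 : Module.finrank ℚ F * Module.finrank F H = Module.finrank ℚ H := Module.finrank_mul_finrank ℚ F H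
    rw [hK.quad] at h1
    rw [hF] at h2
    omega
  obtain ⟨⟨m₀, h1, h2⟩, h3⟩ := GRA.mainF_all Q hK.two (a := a) hH.artin hH.galois hH.unramified hdeg (E := E) ⟨hE.1, hE.2⟩
  exact ⟨⟨m₀, h1, most_of h2⟩, fun h => most_of (h3 h)⟩

theorem example23 : Example23 := by
  constructor
  · obtain ⟨F, i1, i2, h, θ, hθ⟩ := GRO.exists_cubic
    exact ⟨F, i1, i2, h, θ, hθ⟩
  · intro F _ _ θ h hθ
    exact most_of (GRO.most23 h hθ)

/-- Let `q` be any prime number congruent to `7` modulo `8`, `K = ℚ(√-q)`, `𝔭` a prime ideal of `K` above `2`, `H` the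
Hilbert class field of `K`, `F` a subfield of `H` of index two and `E` an elliptic curve over `F` which over `H` is a curve
of Gross. If `E` has good reduction at all prime ideals of `F` which do not lie above `q`, then `MostIntegerTwists` holds for
`E`: at least the part `(5/24) ∏ (1 - 2 ^ (-(2 k + 1))) = 0.08737…` of the twists of `E` by all squarefree integers `m`,
ordered by `|m|`, satisfy `RankZero` over `F`. Without the condition on the reduction this holds for the twist of `E` by some
nonzero integer. The second clause is an example with class number `3`.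

Remarks (not proved in Lean): for every prime number `q` congruent to `7` modulo `8` such curves `E` exist (Gross, Arithmetic
on elliptic curves with complex multiplication, 1980: the curve `A(q)` over `F = ℚ(j)`); class field theory gives the field
`H` and the isomorphism `a`. If the class of `𝔭` generates the class group (`q = 7, 23, 31, 47, 71, …`) no isogeny of odd
degree is needed in `GrossCurve`. A subfield `F` of index two of `H` does not contain `K`, since the degree of `H` over `K`
is odd, and `F = ℚ(j(E))`. An elliptic curve over `H` is a curve of Gross if and only if it has complex multiplication by the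
ring of integers of `K` and is isogenous over `H` to its conjugates over `K`. -/
theorem result :
    (∀ (K H F : Type) [Field K] [NumberField K] [Field H] [NumberField H] [Field F] [NumberField F]
      [Algebra K H] [Algebra F H] (a : ClassGroup (𝓞 K) ≃* (H ≃ₐ[K] H)) (𝔭 : HeightOneSpectrum (𝓞 K)) (q : ℕ),
      Base K 𝔭 q → HilbertClassField K H a → Module.finrank F H = 2 →
      ∀ E : WeierstrassCurve F, GrossCurve a 𝔭 (E.map (algebraMap F H)) →
        (∃ m₀ : ℤ, m₀ ≠ 0 ∧ MostIntegerTwists (twist E (m₀ : F))) ∧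
        ((∀ w : HeightOneSpectrum (𝓞 F), (q : 𝓞 F) ∉ w.asIdeal → GoodReduction E w) → MostIntegerTwists E)) ∧
    Example23 :=
  ⟨fun K H F _ _ _ _ _ _ _ _ a 𝔭 q hK hH hF E hE => mostIntegerTwists K H F a 𝔭 q hK hH hF E hE, example23⟩

end Pool.Agent.Results.MP_9ab903_nt.GrossIntegerTwists
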