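import Mathlib
import Pool.Agent.UNI.Final

/-!
The conjecture of Birch and Swinnerton-Dyer modulo `l` for all elliptic curves over an imaginary quadratic field
`K` with complex multiplication by the ring of integers of `K` and a `K`-rational point of prime order `l`, where
`l` divides the number of units; and the exact proportion of the curves which satisfy the `l`-part of the strong
conjecture in its simplest form.
-/

set_option autoImplicit false

open NumberField Filter Topology
open scoped Classical

namespace Pool.Agent.Results.MP_9ab903_nt.UniformCM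

/-- The nine pairs `(n, j)` such that `ℚ(√-n)` has class number one and `j` is the `j`-invariant of the elliptic
curves with complex multiplication by the ring of integers of `ℚ(√-n)`. (Every elliptic curve over an imaginary
quadratic field `K` with complex multiplication by the ring of integers of `K` is of this kind.) -/
def IsCMPair (n : ℕ) (j : ℤ) : Prop :=
  (n = 1 ∧ j = 1728) ∨ (n = 2 ∧ j = 8000) ∨ (n = 3 ∧ j = 0) ∨ (n = 7 ∧ j = -3375) ∨
    (n = 11 ∧ j = -32768) ∨ (n = 19 ∧ j = -884736) ∨ (n = 43 ∧ j = -884736000) ∨
    (n = 67 ∧ j = -147197952000) ∨ (n = 163 ∧ j = -262537412640768000)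

/-- `E` has a point of order `l` over `K` (`l` a prime number). -/
def HasPoint (l : ℕ) {K : Type} [Field K] [NumberField K] (E : WeierstrassCurve K) : Prop :=
  ∃ P : E.toAffine.Point, P ≠ 0 ∧ l • P = 0

/-- All points of order `2` of `E` are defined over `K` (`E` has two different `K`-points of order `2`). -/
def HasFullTwo {K : Type} [Field K] [NumberField K] (E : WeierstrassCurve K) : Prop :=
  ∃ P Q : E.toAffine.Point, P ≠ 0 ∧ Q ≠ 0 ∧ P ≠ Q ∧ P + P = 0 ∧ Q + Q = 0

/-- `E` has a Weierstrass equation with coefficients in the ring of integers of `K` whose discriminant has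
norm at most `X`. For the fields below (which have class number one), this means that the norm of the
minimal discriminant of `E` is at most `X`. -/
def MinDiscLE {K : Type} [Field K] [NumberField K] (E : WeierstrassCurve K) (X : ℕ) : Prop :=
  ∃ (M : WeierstrassCurve (𝓞 K)) (C : WeierstrassCurve.VariableChange K),
    E = C • M.map (algebraMap (𝓞 K) K) ∧ Ideal.absNorm (Ideal.span {M.Δ}) ≤ X

/-- The isomorphism classes over `K` of the elliptic curves over `K` with `j`-invariant `j` and
minimal discriminant of norm at most `X` which contain a curve `E` (given by a Weierstrass equation) with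
the property `P`. -/
def classes (K : Type) [Field K] [NumberField K] (j : K) (P : WeierstrassCurve K → Prop) (X : ℕ) :
    Set (MulAction.orbitRel.Quotient (WeierstrassCurve.VariableChange K) (WeierstrassCurve K)) :=
  {c | ∃ E : WeierstrassCurve K, Quotient.mk _ E = c ∧ (∃ _ : E.IsElliptic, E.j = j) ∧
    MinDiscLE E X ∧ P E}

/-- The limits of the proportions: about 0.419 for `n = 1`, `l = 2` and for `n = 2`, `l = 2`; 0.569 for
`n = 3`, `l = 2`; 0.639 for `n = 3`, `l = 3`; 0.289 for `n = 7`, `l = 2`. -/
noncomputable def limit (n l : ℕ) : ℝ :=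
  if l = 3 then (∏' k : ℕ, (1 + (1 / 3 : ℝ) ^ (k + 1)))⁻¹
  else if n = 7 then ∏' k : ℕ, (1 - (1 / 2 : ℝ) ^ (k + 1))
  else if n = 3 then (∏' k : ℕ, (1 + (1 / 2 : ℝ) ^ (2 * k + 1)))⁻¹
  else (∏' k : ℕ, (1 + (1 / 2 : ℝ) ^ (k + 1)))⁻¹

/-- **The conjecture of Birch and Swinnerton-Dyer modulo `l`** for `E`: the `L`-series of `E` extends to an
entire function `L`; the quotient `L(1) √|Δ(K)| |E(K)_tors|² / (Ω(E) ∏ c_v)` (which the conjecture asserts to
be the order of the Tate–Shafarevich group if `E(K)` is finite, and `0` if `E(K)` is infinite) is a rational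
number `q` without `l` in the denominator; and `q` is an `l`-adic unit if and only if `E(K)` is finite and the
Tate–Shafarevich group has no element of order `l`. -/
def ModPrime (l : ℕ) {K : Type} [Field K] [NumberField K] (E : WeierstrassCurve K) : Prop :=
  E.IsElliptic ∧ ∃ L : ℂ → ℂ, SBSD2.IsEntireLSeries E L ∧
    ∃ q : ℚ, SBSD2.bsdQuotient E (L 1) = q ∧ 0 ≤ padicValRat l q ∧
      ((q ≠ 0 ∧ padicValRat l q = 0) ↔
        (Finite E.toAffine.Point ∧ ∀ x : SBSD.Sha E, l • x = 0 → x = 0))

/-- The rank part and the `l`-part of the strong Birch and Swinnerton-Dyer conjecture for `E`, with rank `0` and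
trivial `l`-primary part of the Tate–Shafarevich group: `E(K)` is finite; the `L`-series extends to an entire
function `L` whose order of vanishing at `s = 1` is the rank of `E(K)`, with `L(1) ≠ 0`; the Tate–Shafarevich
group has no nonzero element of `l`-power order; and the quotient
`L(1) √|Δ(K)| |E(K)_tors|² / (Ω(E) ∏ c_v)` is a nonzero rational number with `l`-adic valuation `0`. -/
def PartRankZero (l : ℕ) {K : Type} [Field K] [NumberField K] (E : WeierstrassCurve K) : Prop :=
  E.IsElliptic ∧ Finite E.toAffine.Point ∧
    ∃ L : ℂ → ℂ, SBSD2.IsEntireLSeries E L ∧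
      analyticOrderAt L 1 = Module.finrank ℤ E.toAffine.Point ∧ L 1 ≠ 0 ∧
      (∀ (x : SBSD.Sha E) (k : ℕ), l ^ k • x = 0 → x = 0) ∧
      ∃ q : ℚ, q ≠ 0 ∧ padicValRat l q = 0 ∧ SBSD2.bsdQuotient E (L 1) = q

/-- Let `K` be an imaginary quadratic field (a subfield of `ℂ`), `l` a prime number which divides the order of the
group of units of the ring of integers of `K` (that is: `K` contains the `l`-th roots of unity), and consider
ALL elliptic curves `E` over `K` with complex multiplication by the ring of integers of `K` which have a
`K`-rational point of order `l`. (By the theorem of Heegner, Baker and Stark `K = ℚ(√-n)` and the `j`-invariant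
is `j`, for one of the nine pairs `(n, j)` of `IsCMPair`. The primes `l` are excluded in the theorems of Rubin
on these curves.)

(a) EVERY such curve satisfies the conjecture of Birch and Swinnerton-Dyer modulo `l` (`ModPrime` above): its
`L`-series is entire, the conjectural order `q` of its Tate–Shafarevich group is a rational number without
`l` in the denominator, and `q` is an `l`-adic unit if and only if `E(K)` is finite and the Tate–Shafarevich
group has no element of order `l`.

(b) The rank part and the `l`-part of the strong conjecture with rank `0` and trivial `l`-primary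
Tate–Shafarevich group (`PartRankZero` above), for a positive proportion of these curves, which is exactly known:
There are such curves only for `n = 1, 2, 7`, `l = 2` (then EVERY curve `E` has a point of order `2`) and for
`n = 3`, `l = 2` or `l = 3` (the last two assertions of the theorem). For these `n`, the number of isomorphism classes with
minimal discriminant of norm at most `X` is finite and tends to infinity with `X`, and the proportion of the
classes with this property TENDS TO `limit n l` (about 0.419 for `n = 1, 2`, `l = 2`; 0.569 for `n = 3`, `l = 2`;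
0.639 for `n = 3`, `l = 3`; 0.289 for `n = 7`, `l = 2`).

(c) For `n = 1` (so `l = 2`), assertion (b) holds also, with the same limit, for the curves all of whose points of
order `2` are rational over `K` (a family of density zero among all curves, for which (b) says nothing). -/
theorem result (K : IntermediateField ℚ ℂ) [NumberField K] (hK : Module.finrank ℚ K = 2)
    (n : ℕ) (j : ℤ) (h : IsCMPair n j) (hr : ∃ r : K, r ^ 2 = -(n : K))
    (l : ℕ) (hl : l.Prime) (hz : ∃ ζ : K, IsPrimitiveRoot ζ l) :
    (∀ E : WeierstrassCurve K, (∃ _ : E.IsElliptic, E.j = (j : K)) → HasPoint l E → ModPrime l E) ∧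
    ((n = 1 ∨ n = 2 ∨ n = 3 ∨ n = 7) →
      (∀ X : ℕ, (classes K j (HasPoint l) X).Finite) ∧
      Tendsto (fun X => (classes K j (HasPoint l) X).ncard) atTop atTop ∧
      Tendsto (fun X => ((classes K j (fun E => HasPoint l E ∧ PartRankZero l E) X).ncard : ℝ) /
        ((classes K j (HasPoint l) X).ncard : ℝ)) atTop (𝓝 (limit n l))) ∧
    (n = 1 →
      (∀ X : ℕ, (classes K j HasFullTwo X).Finite) ∧
      Tendsto (fun X => (classes K j HasFullTwo X).ncard) atTop atTop ∧
      Tendsto (fun X => ((classes K j (fun E => HasFullTwo E ∧ PartRankZero l E) X).ncard : ℝ) /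
        ((classes K j HasFullTwo X).ncard : ℝ)) atTop (𝓝 (limit 1 2))) ∧
    ((n = 1 ∨ n = 2 ∨ n = 7) →
      ∀ E : WeierstrassCurve K, (∃ _ : E.IsElliptic, E.j = (j : K)) → HasPoint l E) ∧
    (¬ (n = 1 ∨ n = 2 ∨ n = 3 ∨ n = 7) →
      ∀ E : WeierstrassCurve K, (∃ _ : E.IsElliptic, E.j = (j : K)) → ¬ HasPoint l E) := by
  exact UNI.final K hK (PA := ModPrime l) (PB := PartRankZero l) (fun _ h => h) (fun _ h => h.part_iff) n j h hr hl hz

end Pool.Agent.Results.MP_9ab903_nt.UniformCM
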